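import Pool.Agent.helper67.GV.Spec

/-! # Row gv:FMH (MP_89787e_co): one more capacity -/

set_option autoImplicit false

namespace Pool.Agent.helper67.GV

open Pool.Agent.helper21.GR

theorem FMH_map (s : Multiset ℕ) (a : ℕ) :
    Multiset.map (fun o : Option (1 ::ₘ s).ToType => o.elim a (fun p => (p : ℕ))) Finset.univ.val =
      1 ::ₘ (a ::ₘ s) := by
  have e : (Finset.univ : Finset (Option (1 ::ₘ s).ToType)).val =
      none ::ₘ Multiset.map some (Finset.univ : Finset (1 ::ₘ s).ToType).val := rfl
  rw [e, Multiset.map_cons, Multiset.map_map]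
  have e2 : Multiset.map ((fun o : Option (1 ::ₘ s).ToType => o.elim a (fun p => (p : ℕ))) ∘ some)
      (Finset.univ : Finset (1 ::ₘ s).ToType).val = 1 ::ₘ s := Multiset.map_univ_coe (1 ::ₘ s)
  rw [e2]
  exact Multiset.cons_swap a 1 s

theorem FMH (hCRD : CRD_stmt) (hH1B : H1B_stmt) (hFM2 : FM2_stmt) : FMH_stmt := by
  classical
  intro T s a hT hs ha haT
  have hFc : Fc (fun o : Option (1 ::ₘ s).ToType => o.elim a (fun p => (p : ℕ))) = Fm (a ::ₘ s) :=
    hFM2 (Option (1 ::ₘ s).ToType) _ (a ::ₘ s) (FMH_map s a)
  constructor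
  · rw [← hFc]
    obtain ⟨c, hc, hB⟩ := (hCRD (1 ::ₘ s).ToType (fun p => (p : ℕ))).2.1
    have h := (hCRD (Option (1 ::ₘ s).ToType) (fun o => o.elim a (fun p => (p : ℕ)))).1
      (Fin (Fc (fun p : (1 ::ₘ s).ToType => (p : ℕ)))) (fun u v => some (c u v)) Finset.univ ?_ ?_
    · simpa [Fm] using h
    · refine ⟨fun u v => congrArg some (hc.symm u v), fun u v w huv hvw huw => ?_⟩
      rcases hc.gal u v w huv hvw huw with h | h | h
      · exact Or.inl (congrArg some h)
      · exact Or.inr (Or.inl (congrArg some h))
      · exact Or.inr (Or.inr (congrArg some h))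
    · intro l
      cases l with
      | none =>
        intro Q hQ hq
        have h1 : Q.card ≤ 1 := by
          rw [Finset.card_le_one]
          intro x hx y hy
          by_contra hxy
          exact absurd (hq x hx y hy hxy) (by simp)
        rw [Finset.sum_const, smul_eq_mul, mul_one]
        exact h1.trans ha
      | some p =>
        intro Q hQ hq
        exact hB p Q hQ (fun u hu v hv huv => Option.some.inj (hq u hu v hv huv))
  · rw [← hFc]
    have : Nonempty (1 ::ₘ s).ToType := by
      rw [← Fintype.card_pos_iff, Multiset.card_coe, Multiset.card_cons]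
      exact Nat.succ_pos _
    have hmem : ∀ p : (1 ::ₘ s).ToType, (p : ℕ) ≤ T := by
      intro p
      have h : (p : ℕ) ∈ 1 ::ₘ s := Multiset.coe_mem
      rcases Multiset.mem_cons.1 h with e | h
      · rw [e]
        omega
      · exact (hs _ h).2
    exact hH1B (1 ::ₘ s).ToType T hT (fun o => o.elim a (fun p => (p : ℕ))) (by
      intro i
      cases i with
      | none => exact haT
      | some p => exact hmem p)

end Pool.Agent.helper67.GV
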