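import Pool.Agent.helper67.GV.Spec

/-! # Row gv:GRC (MP_89787e_co): Gallai-Ramsey numbers and the function `Fm` -/

set_option autoImplicit false

namespace Pool.Agent.helper67.GV

open Pool.Agent.helper21.GR

theorem GRC_notMem {T k n : ℕ} : n ∉ GSet k (T + 1) ↔ Rz (fun _ : Fin k => T) n := by
  constructor
  · intro h
    by_contra hcon
    apply h
    intro f hf hg
    by_contra hno
    refine hcon ⟨f, ⟨hf, hg⟩, fun i => ?_⟩
    have h1 := clique_small (by omega) hno i Finset.univ
    rwa [Nat.add_sub_cancel] at h1
  · rintro ⟨c, hc, hB⟩ h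
    obtain ⟨S, hS, i, hi⟩ := h c hc.symm hc.gal
    have h1 := hB i S (Finset.subset_univ _) hi
    rw [Finset.sum_const, smul_eq_mul, mul_one] at h1
    change S.card ≤ T at h1
    omega

theorem GRC_opt {T k n : ℕ} (hT : 1 ≤ T) (hk : 1 ≤ k) : Rz (fun _ : Fin k => T) n ↔
    Rz (fun o : Option (Fin k) => o.elim 1 (fun _ => T)) n := by
  constructor
  · rintro ⟨c, hc, hB⟩
    refine ⟨fun u v => some (c u v), ⟨fun u v => congrArg some (hc.symm u v),
      fun u v w huv hvw huw => ?_⟩, fun l => ?_⟩
    · rcases hc.gal u v w huv hvw huw with h | h | h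
      · exact Or.inl (congrArg some h)
      · exact Or.inr (Or.inl (congrArg some h))
      · exact Or.inr (Or.inr (congrArg some h))
    · cases l with
      | none =>
        intro Q hQ hq
        have h1 : Q.card ≤ 1 := by
          rw [Finset.card_le_one]
          intro x hx y hy
          by_contra hxy
          exact absurd (hq x hx y hy hxy) (by simp)
        rw [Finset.sum_const, smul_eq_mul, mul_one]
        exact h1
      | some p =>
        intro Q hQ hq
        exact hB p Q hQ (fun u hu v hv huv => Option.some.inj (hq u hu v hv huv))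
  · rintro ⟨c, hc, hB⟩
    have hne : ∀ u v, u ≠ v → c u v ≠ none := by
      intro u v huv h
      have h1 := hB none {u, v} (Finset.subset_univ _) (by
        intro x hx y hy hxy
        rw [Finset.mem_insert, Finset.mem_singleton] at hx hy
        rcases hx with rfl | rfl <;> rcases hy with rfl | rfl
        · exact absurd rfl hxy
        · exact h
        · show c _ _ = none
          rw [hc.symm]
          exact h
        · exact absurd rfl hxy)
      rw [Finset.sum_const, smul_eq_mul, mul_one, Finset.card_pair huv] at h1
      change 2 ≤ 1 at h1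
      omega
    have hs : ∀ u v, u ≠ v → c u v = some ((c u v).getD ⟨0, hk⟩) := by
      intro u v huv
      obtain ⟨p, hp⟩ := Option.ne_none_iff_exists'.1 (hne u v huv)
      rw [hp]
      rfl
    refine ⟨fun u v => (c u v).getD ⟨0, hk⟩, ⟨fun u v => ?_, fun u v w huv hvw huw => ?_⟩,
      fun i Q hQ hq => ?_⟩
    · show (c u v).getD _ = (c v u).getD _
      rw [hc.symm]
    · show (c u v).getD _ = (c v w).getD _ ∨ (c v w).getD _ = (c u w).getD _ ∨
        (c u v).getD _ = (c u w).getD _
      rcases hc.gal u v w huv hvw huw with h | h | h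
      · exact Or.inl (by rw [h])
      · exact Or.inr (Or.inl (by rw [h]))
      · exact Or.inr (Or.inr (by rw [h]))
    · refine hB (some i) Q hQ (fun u hu v hv huv => ?_)
      show c u v = some i
      rw [hs u v huv]
      exact congrArg some (hq u hu v hv huv)

theorem GRC (hCRD : CRD_stmt) (hFM2 : FM2_stmt) : GRC_stmt := by
  intro T k hT hk
  have hmap : Multiset.map (fun o : Option (Fin k) => o.elim 1 (fun _ => T)) Finset.univ.val =
      1 ::ₘ Multiset.replicate k T := by
    have e : (Finset.univ : Finset (Option (Fin k))).val =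
        none ::ₘ Multiset.map some (Finset.univ : Finset (Fin k)).val := rfl
    rw [e, Multiset.map_cons, Multiset.map_map]
    have e2 : Multiset.map ((fun o : Option (Fin k) => o.elim 1 (fun _ => T)) ∘ some)
        (Finset.univ : Finset (Fin k)).val = Multiset.replicate k T := by
      have e3 : ((fun o : Option (Fin k) => o.elim 1 (fun _ => T)) ∘ some) =
          Function.const (Fin k) T := rfl
      rw [e3, Multiset.map_const]
      congr 1
      exact Finset.card_fin k
    rw [e2]
    rfl
  have hF : Fc (fun o : Option (Fin k) => o.elim 1 (fun _ => T)) = Fm (Multiset.replicate k T) :=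
    hFM2 (Option (Fin k)) _ _ hmap
  have hmem : ∀ n, n ∉ GSet k (T + 1) ↔ n ≤ Fm (Multiset.replicate k T) := by
    intro n
    rw [GRC_notMem, GRC_opt (by omega) hk, (hCRD (Option (Fin k)) _).2.2.1 n, hF]
  have h1 : Fm (Multiset.replicate k T) + 1 ∈ GSet k (T + 1) := by
    by_contra h
    have := (hmem _).1 h
    omega
  refine ⟨⟨_, h1⟩, le_antisymm (Nat.sInf_le h1) (le_csInf ⟨_, h1⟩ fun m hm => ?_), ?_⟩
  · by_contra h
    exact (hmem m).2 (by omega) hm
  · by_contra h
    refine (hmem _).2 le_rfl (fun f hf hg => ?_)
    by_contra hno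
    exact h ⟨f, hf, hg, hno⟩

end Pool.Agent.helper67.GV
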